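import Pool.Agent.W482.LR.Stm
/-! LR-LPR (MP_4d246d_lc): the rows of the LP at the vertices. -/
set_option autoImplicit false

namespace Pool.Agent.W465.LR
open Pool.Agent.W482.LR Finset

lemma PP_bd {J X : Type} [DecidableEq J] [Fintype X] [DecidableEq X]
    (bl : X → Option (J × ℕ)) (D β : ℕ) (hβ : ∀ j i, (blk bl j i).card ≤ β) (hD : 2 * β < D)
    (v : X → Bool) (j : J) (i : ℕ) : 0 ≤ PP bl D v j i ∧ PP bl D v j i ≤ β := by
  have hD0 : (0 : ℝ) < D := by
    have : 0 < D := by omega
    exact_mod_cast this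
  have hD2 : (2 : ℝ) * β < D := by exact_mod_cast hD
  induction i with
  | zero => simp [PP]
  | succ i ih =>
    obtain ⟨h0, h1⟩ := ih
    have ha : 0 ≤ PP bl D v j i / D := div_nonneg h0 hD0.le
    have hb : PP bl D v j i / D ≤ 1 := by
      rw [div_le_one hD0]
      have : (0 : ℝ) ≤ β := Nat.cast_nonneg β
      linarith
    have hterm : ∀ l, 0 ≤ (if v l then 1 - PP bl D v j i / D else PP bl D v j i / D) ∧
        (if v l then 1 - PP bl D v j i / D else PP bl D v j i / D) ≤ 1 := by
      intro l
      split_ifs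
      · constructor <;> linarith
      · exact ⟨ha, hb⟩
    constructor
    · rw [PP]
      exact Finset.sum_nonneg fun l _ => (hterm l).1
    · rw [PP]
      calc _ ≤ ∑ l ∈ blk bl j i, (1 : ℝ) := Finset.sum_le_sum fun l _ => (hterm l).2
        _ = (blk bl j i).card := by simp
        _ ≤ β := by exact_mod_cast hβ j i

lemma inp_bd {J X : Type} [DecidableEq J] [Fintype X] [DecidableEq X]
    (bl : X → Option (J × ℕ)) (D β : ℕ) (hβ : ∀ j i, (blk bl j i).card ≤ β) (hD : 2 * β < D)
    (v : X → Bool) (l : X) : 0 ≤ inp bl D v l ∧ inp bl D v l ≤ β := by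
  unfold inp
  split
  · exact PP_bd bl D β hβ hD v _ _
  · simp

lemma sum_pre {J X : Type} [DecidableEq J] [Fintype X] [DecidableEq X]
    (bl : X → Option (J × ℕ)) (D : ℕ) (v : X → Bool) (l : X) :
    ∑ l' ∈ pre bl l, vtx bl D v l' = (pre bl l).card + inp bl D v l := by
  rcases hbl : bl l with _ | ⟨j, _ | i⟩
  · simp [pre, inp, hbl]
  · simp [pre, inp, hbl, PP]
  · have h1 : pre bl l = blk bl j i := by simp [pre, hbl]
    have h2 : inp bl D v l = PP bl D v j (i + 1) := by simp [inp, hbl]
    rw [h1, h2, PP]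
    have h3 : ∀ l' ∈ blk bl j i, vtx bl D v l' =
        1 + (if v l' then 1 - PP bl D v j i / D else PP bl D v j i / D) := by
      intro l' hl'
      have hb : bl l' = some (j, i) := by simpa [blk] using hl'
      have h4 : inp bl D v l' = PP bl D v j i := by simp [inp, hb]
      unfold vtx
      rw [h4]
      split_ifs <;> ring
    rw [Finset.sum_congr rfl h3, Finset.sum_add_distrib]
    simp

lemma not_mem_pre {J X : Type} [DecidableEq J] [Fintype X] [DecidableEq X]
    (bl : X → Option (J × ℕ)) (l : X) : l ∉ pre bl l := by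
  rcases hbl : bl l with _ | ⟨j, _ | i⟩
  · simp [pre, hbl]
  · simp [pre, hbl]
  · simp [pre, hbl, blk]

lemma row_eq {J X R : Type} [DecidableEq J] [Fintype X] [DecidableEq X]
    (bl : X → Option (J × ℕ)) (D : ℕ) (e : R ≃ X × Bool) (κ : R → ℕ) (v : X → Bool) (r : R) :
    row (mat bl D e κ) (vtx bl D v) r =
      κ r * ((if (e r).2 then (D : ℝ) else -D) * vtx bl D v (e r).1 +
        ((pre bl (e r).1).card + inp bl D v (e r).1)) := by
  rw [← sum_pre bl D v (e r).1]
  unfold row mat
  have h1 : ∀ l : X, (((κ r : ℤ) * ((if l = (e r).1 then (if (e r).2 then (D : ℤ) else -D) else 0) +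
      (if l ∈ pre bl (e r).1 then 1 else 0)) : ℤ) : ℝ) * vtx bl D v l =
      κ r * ((if l = (e r).1 then (if (e r).2 then (D : ℝ) else -D) * vtx bl D v l else 0) +
        (if l ∈ pre bl (e r).1 then vtx bl D v l else 0)) := by
    intro l
    push_cast
    split_ifs <;> ring
  rw [Finset.sum_congr rfl fun l _ => h1 l, ← Finset.mul_sum, Finset.sum_add_distrib,
    Finset.sum_ite_eq' Finset.univ (e r).1, if_pos (Finset.mem_univ _)]
  congr 2
  rw [← Finset.sum_filter]
  congr 1
  ext l
  simp

theorem lpr : Pool.Agent.W482.LR.LPR := by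
  intro J X R _ _ _ bl D e κ β hβ hD
  have hD0 : (0 : ℝ) < D := by
    have : 0 < D := by omega
    exact_mod_cast this
  refine ⟨inp_bd bl D β hβ hD, ?_, ?_⟩
  · intro v r h
    rw [row_eq]
    have hD' : (D : ℝ) * (inp bl D v (e r).1 / D) = inp bl D v (e r).1 := by field_simp
    unfold rhs vtx
    rw [h]
    rcases (e r).2 with _ | _
    · push_cast
      try simp only [Bool.false_eq_true, if_false]
      linear_combination (-(κ r : ℝ)) * hD'
    · push_cast
      simp only [if_true]
      linear_combination (-(κ r : ℝ)) * hD'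
  · intro v r h
    rw [row_eq]
    have hD' : (D : ℝ) * (inp bl D v (e r).1 / D) = inp bl D v (e r).1 := by field_simp
    unfold rhs vtx
    have h' : v (e r).1 = !(e r).2 := by
      revert h
      cases v (e r).1 <;> cases (e r).2 <;> simp
    rw [h']
    rcases (e r).2 with _ | _
    · push_cast
      simp only [Bool.not_false, Bool.false_eq_true, if_false, if_true]
      linear_combination (-(κ r : ℝ)) * hD'
    · push_cast
      simp only [Bool.not_true, Bool.false_eq_true, if_false, if_true]
      linear_combination (-(κ r : ℝ)) * hD'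

end Pool.Agent.W465.LR
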